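import Mathlib

/-!
# H67E/Base: a thin set of primes, counting multiples
-/

set_option autoImplicit false

namespace Pool.Agent.H67E

open Finset

/-- `n` has no prime factor in `R`. -/
def Free (R : Set ℕ) (n : ℕ) : Prop := n ≠ 0 ∧ ∀ p ∈ R, ¬ p ∣ n

/-- The reciprocals of the elements of `R`. -/
noncomputable def rcp (R : Set ℕ) : ℕ → ℝ := R.indicator fun p => 1 / (p : ℝ)

theorem rcp_nonneg (R : Set ℕ) (p : ℕ) : 0 ≤ rcp R p :=
  Set.indicator_nonneg (fun _ _ => by positivity) _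

theorem rcp_mem {R : Set ℕ} {p : ℕ} (h : p ∈ R) : rcp R p = 1 / (p : ℝ) :=
  Set.indicator_of_mem h _

theorem tail {R : Set ℕ} (hS : Summable (rcp R)) {η : ℝ} (hη : 0 < η) :
    ∃ w : ℕ, ∀ F : Finset ℕ, (∀ p ∈ F, w < p) → ∑ p ∈ F, rcp R p ≤ η := by
  obtain ⟨s, hs⟩ := summable_iff_vanishing_norm.1 hS η hη
  refine ⟨s.sup id, fun F hF => ?_⟩
  have h1 : Disjoint F s := by
    rw [Finset.disjoint_left]
    intro p hp hp'
    have h2 : p ≤ s.sup id := Finset.le_sup (f := id) hp'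
    exact absurd (hF p hp) (by omega)
  exact (le_abs_self _).trans (hs F h1).le

/-- The multiples of `p` among the values of an injective function. -/
theorem card_dvd {f : ℕ → ℕ} (hf : Function.Injective f) {C : ℕ} (hC : ∀ k, f k ≤ C * k) (K p : ℕ) :
    ((range K).filter fun k => f k ≠ 0 ∧ p ∣ f k).card ≤ C * K / p := by
  have h1 : (((range K).filter fun k => f k ≠ 0 ∧ p ∣ f k).image f).card ≤
      ((Ioc 0 (C * K)).filter fun m => p ∣ m).card := by
    apply Finset.card_le_card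
    intro m hm
    rw [Finset.mem_image] at hm
    obtain ⟨k, hk, rfl⟩ := hm
    rw [Finset.mem_filter, Finset.mem_range] at hk
    rw [Finset.mem_filter, Finset.mem_Ioc]
    exact ⟨⟨Nat.pos_of_ne_zero hk.2.1, (hC k).trans (Nat.mul_le_mul_left C hk.1.le)⟩, hk.2.2⟩
  rw [Finset.card_image_of_injective _ hf, Nat.Ioc_filter_dvd_card_eq_div] at h1
  exact h1

open Classical in
/-- The values which have a large prime factor in `R`. -/
theorem card_bad {R : Set ℕ} {f : ℕ → ℕ} (hf : Function.Injective f) {C : ℕ} (hC : ∀ k, f k ≤ C * k)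
    {w : ℕ} {η : ℝ} (hw : ∀ F : Finset ℕ, (∀ p ∈ F, w < p) → ∑ p ∈ F, rcp R p ≤ η) (K : ℕ) :
    (((range K).filter fun k => f k ≠ 0 ∧ ∃ p ∈ R, w < p ∧ p ∣ f k).card : ℝ) ≤ C * K * η := by
  have h1 : (range K).filter (fun k => f k ≠ 0 ∧ ∃ p ∈ R, w < p ∧ p ∣ f k) ⊆
      ((Ioc w (C * K)).filter fun p => p ∈ R).biUnion fun p =>
        (range K).filter fun k => f k ≠ 0 ∧ p ∣ f k := by
    intro k hk
    rw [Finset.mem_filter, Finset.mem_range] at hk
    obtain ⟨hk, h0, p, hp, hwp, hpk⟩ := hk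
    rw [Finset.mem_biUnion]
    refine ⟨p, ?_, ?_⟩
    · rw [Finset.mem_filter, Finset.mem_Ioc]
      refine ⟨⟨hwp, ?_⟩, hp⟩
      exact (Nat.le_of_dvd (Nat.pos_of_ne_zero h0) hpk).trans
        ((hC k).trans (Nat.mul_le_mul_left C hk.le))
    · rw [Finset.mem_filter, Finset.mem_range]
      exact ⟨hk, h0, hpk⟩
  have h2 : (((range K).filter fun k => f k ≠ 0 ∧ ∃ p ∈ R, w < p ∧ p ∣ f k).card : ℝ) ≤
      ∑ p ∈ (Ioc w (C * K)).filter (fun p => p ∈ R), (C * K : ℝ) * rcp R p := by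
    refine (Nat.cast_le.2 ((Finset.card_le_card h1).trans Finset.card_biUnion_le)).trans ?_
    rw [Nat.cast_sum]
    apply Finset.sum_le_sum
    intro p hp
    rw [Finset.mem_filter, Finset.mem_Ioc] at hp
    refine (Nat.cast_le.2 (card_dvd hf hC K p)).trans ?_
    rw [rcp_mem hp.2]
    have h3 := Nat.cast_div_le (α := ℝ) (m := C * K) (n := p)
    refine h3.trans (le_of_eq ?_)
    push_cast
    ring
  refine h2.trans ?_
  rw [← Finset.mul_sum]
  apply mul_le_mul_of_nonneg_left _ (by positivity)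
  apply hw
  intro p hp
  rw [Finset.mem_filter, Finset.mem_Ioc] at hp
  exact hp.1.1

theorem exp_le_one_sub {t : ℝ} (h0 : 0 ≤ t) (h1 : t ≤ 1 / 2) : Real.exp (-(2 * t)) ≤ 1 - t := by
  rw [Real.exp_neg, inv_le_comm₀ (Real.exp_pos _) (by linarith)]
  refine le_trans ?_ (Real.add_one_le_exp (2 * t))
  rw [inv_le_comm₀ (by linarith) (by linarith), inv_le_iff_one_le_mul₀ (by linarith)]
  nlinarith

/-- A lower bound for the proportion of the residues prime to `Q`. -/
theorem totient_ge {R : Set ℕ} (hS : Summable (rcp R)) {Q : ℕ} (hQ : Q ≠ 0)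
    (h : ∀ p ∈ Q.primeFactors, p = 2 ∨ p ∈ R) :
    Real.exp (-(2 * (1 / 2 + ∑' p, rcp R p))) * Q ≤ (Nat.totient Q : ℝ) := by
  have h1 : (Nat.totient Q : ℝ) = Q * ∏ p ∈ Q.primeFactors, (1 - (p : ℝ)⁻¹) := by
    have h0 := congrArg (Rat.cast : ℚ → ℝ) (Nat.totient_eq_mul_prod_factors Q)
    push_cast at h0
    exact h0
  rw [h1, mul_comm]
  apply mul_le_mul_of_nonneg_left _ (by positivity)
  have h2 : ∏ p ∈ Q.primeFactors, Real.exp (-(2 * (p : ℝ)⁻¹)) ≤
      ∏ p ∈ Q.primeFactors, (1 - (p : ℝ)⁻¹) := by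
    apply Finset.prod_le_prod
    · intro p _
      exact (Real.exp_pos _).le
    · intro p hp
      have h3 : (2 : ℝ) ≤ p := by exact_mod_cast (Nat.prime_of_mem_primeFactors hp).two_le
      apply exp_le_one_sub (by positivity)
      rw [inv_eq_one_div]
      exact one_div_le_one_div_of_le (by norm_num) h3
  refine le_trans ?_ h2
  rw [← Real.exp_sum]
  apply Real.exp_le_exp.2
  rw [Finset.sum_neg_distrib, ← Finset.mul_sum, neg_le_neg_iff]
  apply mul_le_mul_of_nonneg_left _ (by norm_num)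
  have h4 : ∑ p ∈ Q.primeFactors, (p : ℝ)⁻¹ ≤
      ∑ p ∈ Q.primeFactors, ((if p = 2 then 1 / 2 else 0) + rcp R p) := by
    apply Finset.sum_le_sum
    intro p hp
    rcases eq_or_ne p 2 with h5 | h5
    · rw [if_pos h5, h5]
      have := rcp_nonneg R 2
      norm_num
      exact this
    · rcases h p hp with h6 | h6
      · exact absurd h6 h5
      · rw [if_neg h5, rcp_mem h6, zero_add, inv_eq_one_div]
  refine h4.trans ?_
  rw [Finset.sum_add_distrib]
  apply add_le_add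
  · rw [Finset.sum_ite_eq' Q.primeFactors 2]
    split_ifs <;> norm_num
  · exact hS.sum_le_tsum _ fun p _ => rcp_nonneg R p

end Pool.Agent.H67E
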