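import Pool.Agent.H67E.Main

/-!
# H67E/Dens: if one term is not an integer then the products do not have density one
-/

set_option autoImplicit false

namespace Pool.Agent.H67E

open N44b300f8 Finset

/-! ### Sequences with gaps at least one -/

section

variable {β : ℕ → ℝ} {σ : ℕ → ℕ} {θ : ℝ}

theorem gap_le (hg : ∀ j, β j + 1 ≤ β (j + 1)) {m n : ℕ} (h : m ≤ n) : β m + (n - m : ℝ) ≤ β n := by
  induction n, h using Nat.le_induction with
  | base => simp
  | succ n hmn ih =>
    have := hg n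
    push_cast
    linarith

theorem seq_bound (hβ0 : β 0 = 1) (hg : ∀ j, β j + 1 ≤ β (j + 1)) (hθ1 : 1 < θ)
    (hθ : ∀ n : ℕ, θ ≠ n) (hσ : ∀ j, β (σ j) = θ * β j) :
    ∃ δ > 0, ∃ C : ℝ, ∀ m : ℕ, ∀ x : ℝ, β m ≤ x → x ≤ β (m + 1) → (m : ℝ) + 1 ≤ (1 - δ) * x + C := by
  have hθ0 : 0 < θ := by linarith
  have hmono : StrictMono β := strictMono_nat_of_lt_succ fun j => by
    have := hg j
    linarith
  -- the fractional part
  set t : ℕ := ⌊θ⌋₊ with ht
  have ht1 : (t : ℝ) ≤ θ := Nat.floor_le hθ0.le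
  have ht2 : θ < t + 1 := Nat.lt_floor_add_one θ
  have ht3 : (t : ℝ) < θ := lt_of_le_of_ne ht1 fun h => hθ t h.symm
  set κ : ℝ := θ - t with hκ
  have hκ0 : 0 < κ := by linarith
  have hκ1 : κ < 1 := by linarith
  set η : ℝ := (1 - κ) / θ with hη
  have hη0 : 0 < η := by
    apply div_pos <;> linarith
  set c : ℝ := κ / η with hc
  have hc0 : 0 < c := div_pos hκ0 hη0
  have hcη : c * η = κ := div_mul_cancel₀ κ hη0.ne'
  -- `σ` is increasing
  have hσm : StrictMono σ := strictMono_nat_of_lt_succ fun j => by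
    apply hmono.lt_iff_lt.1
    rw [hσ, hσ]
    exact mul_lt_mul_of_pos_left (hmono (Nat.lt_succ_self j)) hθ0
  have hσ0 : 1 ≤ σ 0 := by
    by_contra h
    have h1 : σ 0 = 0 := by omega
    have h2 := hσ 0
    rw [h1, hβ0] at h2
    linarith
  have hσJ : ∀ J, J + 1 ≤ σ J := by
    intro J
    induction J with
    | zero => exact hσ0
    | succ J ih =>
      have := hσm (Nat.lt_succ_self J)
      show J + 1 + 1 ≤ σ (J + 1)
      have h2 : σ J < σ (J + 1) := this
      omega
  -- one step
  have hstep : ∀ j, (σ (j + 1) : ℝ) - σ j ≤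
      θ * (β (j + 1) - β j) - κ + c * (β (j + 1) - β j - 1) := by
    intro j
    have h1 := gap_le hg (hσm.monotone (Nat.le_succ j))
    rw [hσ, hσ] at h1
    have h2 := hg j
    rcases lt_or_ge (β (j + 1) - β j) (1 + η) with h3 | h3
    · have h4 : θ * (β (j + 1) - β j) < t + 1 := by
        have h5 : θ * (β (j + 1) - β j) < θ * (1 + η) := mul_lt_mul_of_pos_left h3 hθ0
        have h6 : θ * (1 + η) = t + 1 := by
          rw [hη, hκ]
          field_simp
          ring
        linarith
      have h5 : σ (j + 1) < σ j + (t + 1) := by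
        have : (σ (j + 1) : ℝ) < σ j + (t + 1) := by linarith
        exact_mod_cast this
      have h6 : (σ (j + 1) : ℝ) ≤ σ j + t := by
        have : σ (j + 1) ≤ σ j + t := by omega
        exact_mod_cast this
      have h7 : 0 ≤ c * (β (j + 1) - β j - 1) := mul_nonneg hc0.le (by linarith)
      have h8 : θ * 1 ≤ θ * (β (j + 1) - β j) := mul_le_mul_of_nonneg_left (by linarith) hθ0.le
      linarith
    · have h7 : c * η ≤ c * (β (j + 1) - β j - 1) := mul_le_mul_of_nonneg_left (by linarith) hc0.le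
      rw [hcη] at h7
      have h8 : θ * (β (j + 1) - β j) = θ * β (j + 1) - θ * β j := by ring
      linarith
  -- the sum
  have hsum : ∀ J : ℕ, (σ J : ℝ) - σ 0 ≤ θ * (β J - 1) - κ * J + c * (β J - 1 - J) := by
    intro J
    induction J with
    | zero => simp [hβ0]
    | succ J ih =>
      have h1 := hstep J
      push_cast
      nlinarith
  have hσ0' : (σ 0 : ℝ) ≤ θ - 1 := by
    have h1 := gap_le hg (Nat.zero_le (σ 0))
    rw [hσ, hβ0] at h1
    push_cast at h1
    linarith
  -- the waste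
  have hDmono : ∀ m n : ℕ, m ≤ n → β m - 1 - m ≤ β n - 1 - n := by
    intro m n h
    have := gap_le hg h
    linarith
  have hwaste : ∀ J m : ℕ, σ J ≤ m → κ * J ≤ (1 + c) * (β m - 1 - m) := by
    intro J m h
    have h1 := hsum J
    have h2 := hDmono _ _ h
    rw [hσ] at h2
    have h3 := hDmono J m ((Nat.le_succ J).trans ((hσJ J).trans h))
    have h4 : c * (β J - 1 - J) ≤ c * (β m - 1 - m) := mul_le_mul_of_nonneg_left h3 hc0.le
    nlinarith
  set A : ℝ := 1 + (1 + c) / κ with hA
  have hA0 : 0 < A := by positivity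
  refine ⟨1 / (θ * A), by positivity, 2 / A + 1 / A, fun m x hx1 hx2 => ?_⟩
  have hkey : β (m + 1) ≤ θ * (A * (β m - 1 - m) + 3) := by
    rcases lt_or_ge m (σ 0) with h1 | h1
    · have h2 : β (m + 1) ≤ θ := by
        have h3 := hmono.monotone (Nat.succ_le_of_lt h1)
        rw [hσ, hβ0, mul_one] at h3
        exact h3
      have h3 := hDmono 0 m (Nat.zero_le m)
      rw [hβ0] at h3
      push_cast at h3
      have h4 : 0 ≤ A * (β m - 1 - m) := mul_nonneg hA0.le (by linarith)
      nlinarith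
    · -- the greatest `J` with `σ J ≤ m`
      obtain ⟨J, hJ1, hJ2⟩ : ∃ J, σ J ≤ m ∧ m < σ (J + 1) := by
        have hex : ∃ J, m < σ J := ⟨m, (Nat.lt_succ_self m).trans_le (hσJ m)⟩
        classical
        have h2 := Nat.find_spec hex
        have h3 : Nat.find hex ≠ 0 := fun h => by
          rw [h] at h2
          omega
        obtain ⟨J, hJ⟩ := Nat.exists_eq_succ_of_ne_zero h3
        rw [hJ] at h2
        refine ⟨J, ?_, h2⟩
        have h4 := Nat.find_min hex (m := J) (by omega)
        omega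
      have h2 := hwaste J m hJ1
      have h3 : β (m + 1) ≤ θ * β (J + 1) := by
        rw [← hσ]
        exact hmono.monotone hJ2
      have h4 := hDmono (J + 1) m ((hσJ J).trans hJ1)
      push_cast at h4
      have h5 : (J : ℝ) ≤ (1 + c) / κ * (β m - 1 - m) := by
        rw [div_mul_eq_mul_div, le_div_iff₀ hκ0]
        linarith
      have h6 : β (J + 1) ≤ A * (β m - 1 - m) + 3 := by
        have h7 : A * (β m - 1 - m) = (β m - 1 - m) + (1 + c) / κ * (β m - 1 - m) := by
          rw [hA]; ring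
        linarith
      exact h3.trans (mul_le_mul_of_nonneg_left h6 hθ0.le)
  have h1 : x ≤ θ * (A * (β m - 1 - m) + 3) := hx2.trans hkey
  have h2 : x / (θ * A) ≤ β m - 1 - m + 3 / A := by
    rw [div_le_iff₀ (by positivity)]
    refine h1.trans (le_of_eq ?_)
    field_simp
  have h3 : (1 - 1 / (θ * A)) * x + (2 / A + 1 / A) = x - x / (θ * A) + 3 / A := by
    ring
  rw [h3]
  linarith

end

/-! ### The enumeration of the products -/

theorem one_le_bi {a : ℕ → ℝ} (hpos : ∀ i, 1 < a i) (k : ℕ →₀ ℕ) : 1 ≤ beurlingInteger a k := by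
  rw [beurlingInteger, Finsupp.prod]
  exact Finset.one_le_prod fun i _ => one_le_pow₀ (hpos i).le

theorem floor_inj_bi {a : ℕ → ℝ} (hpos : ∀ i, 1 < a i) (hs : Erdos951Prop a) {k l : ℕ →₀ ℕ}
    (h : ⌊beurlingInteger a k⌋₊ = ⌊beurlingInteger a l⌋₊) : k = l := by
  by_contra hne
  have h2 := hs _ _ hne
  have hk := one_le_bi hpos k
  have hl := one_le_bi hpos l
  have h3 := Nat.floor_le (a := beurlingInteger a k) (by linarith)
  have h4 := Nat.floor_le (a := beurlingInteger a l) (by linarith)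
  have h5 := Nat.lt_floor_add_one (beurlingInteger a k)
  have h6 := Nat.lt_floor_add_one (beurlingInteger a l)
  rw [h] at h3 h5
  have h7 : |beurlingInteger a k - beurlingInteger a l| < 1 := by
    rw [abs_lt]
    constructor <;> linarith
  linarith

theorem exists_enum {a : ℕ → ℝ} (h0 : 1 < a 0) (hm : StrictMono a) (hs : Erdos951Prop a) :
    ∃ K : ℕ → (ℕ →₀ ℕ), Function.Bijective K ∧ beurlingInteger a (K 0) = 1 ∧
      ∀ j, beurlingInteger a (K j) + 1 ≤ beurlingInteger a (K (j + 1)) := by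
  classical
  have hpos : ∀ i, 1 < a i := fun i => h0.trans_le (hm.monotone (Nat.zero_le i))
  set S : ℕ → Prop := fun n => ∃ k : ℕ →₀ ℕ, ⌊beurlingInteger a k⌋₊ = n with hS
  have hSk : ∀ k : ℕ →₀ ℕ, S ⌊beurlingInteger a k⌋₊ := fun k => ⟨k, rfl⟩
  have hinf : (Set.ofPred S).Infinite := by
    have h1 : Function.Injective fun i : ℕ => ⌊beurlingInteger a (Finsupp.single i 1)⌋₊ := by
      intro i j hij
      have h2 := floor_inj_bi hpos hs hij
      rwa [Finsupp.single_left_inj one_ne_zero] at h2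
    refine (Set.infinite_range_of_injective h1).mono ?_
    rintro n ⟨i, rfl⟩
    exact hSk _
  have hch : ∀ j : ℕ, ∃ k : ℕ →₀ ℕ, ⌊beurlingInteger a k⌋₊ = Nat.nth S j := fun j =>
    Nat.nth_mem_of_infinite hinf j
  choose K hK using hch
  have hinj : Function.Injective K := by
    intro i j hij
    apply Nat.nth_injective hinf
    rw [← hK, ← hK, hij]
  have hsurj : Function.Surjective K := by
    intro k
    refine ⟨Nat.count S ⌊beurlingInteger a k⌋₊, ?_⟩
    apply floor_inj_bi hpos hs
    rw [hK, Nat.nth_count (hSk k)]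
  have hgap : ∀ j, beurlingInteger a (K j) + 1 ≤ beurlingInteger a (K (j + 1)) := by
    intro j
    have h1 : Nat.nth S j < Nat.nth S (j + 1) := Nat.nth_strictMono hinf (Nat.lt_succ_self j)
    rw [← hK, ← hK] at h1
    have h2 := Nat.lt_floor_add_one (beurlingInteger a (K j))
    have h3 := Nat.floor_le (a := beurlingInteger a (K (j + 1))) (by
      have := one_le_bi hpos (K (j + 1))
      linarith)
    have h4 : ((⌊beurlingInteger a (K j)⌋₊ : ℕ) : ℝ) + 1 ≤ (⌊beurlingInteger a (K (j + 1))⌋₊ : ℕ) := by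
      exact_mod_cast h1
    have h5 : K j ≠ K (j + 1) := fun h => by
      have := hinj h
      omega
    have h6 := hs _ _ h5
    rw [abs_sub_comm, ge_iff_le, abs_of_pos (by linarith)] at h6
    linarith
  refine ⟨K, ⟨hinj, hsurj⟩, ?_, hgap⟩
  obtain ⟨j, hj⟩ := hsurj 0
  have h1 := gap_le (β := fun j => beurlingInteger a (K j)) hgap (Nat.zero_le j)
  simp only [hj, bi_zero] at h1
  have h2 := one_le_bi hpos (K 0)
  have h3 : (0 : ℝ) ≤ j := by positivity
  push_cast at h1
  linarith

/-- If one term is not an integer, the number of products up to `x` is at most `(1 - δ) x + C`. -/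
theorem density_lt {a : ℕ → ℝ} (h0 : 1 < a 0) (hm : StrictMono a) (hs : Erdos951Prop a) {i : ℕ}
    (hi : ∀ n : ℕ, a i ≠ n) :
    ∃ δ > 0, ∃ C : ℝ, ∀ x : ℝ, 1 ≤ x →
      (({k : ℕ →₀ ℕ | beurlingInteger a k ≤ x}.ncard : ℕ) : ℝ) ≤ (1 - δ) * x + C := by
  classical
  obtain ⟨K, hK, hK0, hg⟩ := exists_enum h0 hm hs
  have hi1 : 1 < a i := h0.trans_le (hm.monotone (Nat.zero_le i))
  choose σ hσ using fun j => hK.2 (K j + Finsupp.single i 1)
  obtain ⟨δ, hδ, C, hC⟩ := seq_bound (β := fun j => beurlingInteger a (K j)) (σ := σ) hK0 hg hi1 hi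
    (fun j => by
      show beurlingInteger a (K (σ j)) = a i * beurlingInteger a (K j)
      rw [hσ, bi_add, bi_single]
      ring)
  refine ⟨δ, hδ, C, fun x hx => ?_⟩
  have hmono : StrictMono fun j => beurlingInteger a (K j) := strictMono_nat_of_lt_succ fun j => by
    have := hg j
    linarith
  -- the last product which is at most `x`
  obtain ⟨m, hm1, hm2⟩ : ∃ m, beurlingInteger a (K m) ≤ x ∧ x < beurlingInteger a (K (m + 1)) := by
    have hex : ∃ m, x < beurlingInteger a (K m) := by
      obtain ⟨m, hm⟩ := exists_nat_gt x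
      refine ⟨m, ?_⟩
      have h1 := gap_le (β := fun j => beurlingInteger a (K j)) hg (Nat.zero_le m)
      simp only [hK0] at h1
      push_cast at h1
      linarith
    have h2 := Nat.find_spec hex
    have h3 : Nat.find hex ≠ 0 := fun h => by
      rw [h, hK0] at h2
      linarith
    obtain ⟨m, hm⟩ := Nat.exists_eq_succ_of_ne_zero h3
    rw [hm] at h2
    refine ⟨m, ?_, h2⟩
    have h4 := Nat.find_min hex (m := m) (by omega)
    exact not_lt.1 h4
  have hset : {k : ℕ →₀ ℕ | beurlingInteger a k ≤ x} = K '' (Finset.range (m + 1) : Set ℕ) := by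
    ext k
    rw [Set.mem_ofPred_eq, Set.mem_image]
    constructor
    · intro hk
      obtain ⟨j, rfl⟩ := hK.2 k
      refine ⟨j, ?_, rfl⟩
      rw [Finset.coe_range, Set.mem_Iio]
      exact hmono.lt_iff_lt.1 (lt_of_le_of_lt hk hm2)
    · rintro ⟨j, hj, rfl⟩
      rw [Finset.coe_range, Set.mem_Iio] at hj
      exact (hmono.monotone (Nat.lt_succ_iff.1 hj)).trans hm1
  rw [hset, Set.ncard_image_of_injective _ hK.1, Set.ncard_coe_finset, Finset.card_range]
  have h1 := hC m x hm1 hm2.le
  push_cast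
  exact h1

end Pool.Agent.H67E
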