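import Pool.Agent.H67E.Base

/-!
# H67E/Equi: the integer parts of the multiples of an irrational number, modulo `Q`
-/

set_option autoImplicit false

namespace Pool.Agent.H67E

open Finset

/-- Good rational approximations with large denominators. -/
theorem exists_approx {θ : ℝ} (hθ : Irrational θ) (V : ℕ) :
    ∃ q : ℚ, V < q.den ∧ |θ - q| < 1 / (q.den : ℝ) ^ 2 := by
  by_contra hcon
  push Not at hcon
  have hinf := Real.infinite_rat_abs_sub_lt_one_div_den_sq_of_irrational hθ
  apply hinf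
  set M : ℤ := ⌈(|θ| + 1) * V⌉ with hM
  have hsub : {q : ℚ | |θ - q| < 1 / (q.den : ℝ) ^ 2} ⊆
      (((Finset.Icc (-M) M) ×ˢ (Finset.range (V + 1))).image
        fun x : ℤ × ℕ => (x.1 : ℚ) / (x.2 : ℚ) : Finset ℚ) := by
    intro q hq
    rw [Set.mem_ofPred_eq] at hq
    have hden : q.den ≤ V := by
      by_contra h1
      exact absurd hq (not_lt.2 (hcon q (by omega)))
    rw [Finset.mem_coe, Finset.mem_image]
    refine ⟨(q.num, q.den), ?_, Rat.num_div_den q⟩
    rw [Finset.mem_product, Finset.mem_Icc, Finset.mem_range, ← abs_le]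
    refine ⟨?_, by simpa using Nat.lt_succ_of_le hden⟩
    have hd1 : (1 : ℝ) ≤ (q.den : ℝ) := by exact_mod_cast q.den_pos
    have h2 : |(q : ℝ)| ≤ |θ| + 1 := by
      have h3 : |θ - q| ≤ 1 := hq.le.trans (by
        rw [div_le_one (by positivity)]
        exact one_le_pow₀ hd1)
      have h4 := abs_sub_abs_le_abs_sub (q : ℝ) θ
      rw [abs_sub_comm] at h4
      linarith
    have h5 : |(q.num : ℝ)| = |(q : ℝ)| * q.den := by
      have h6 : (q : ℝ) * q.den = q.num := by exact_mod_cast Rat.mul_den_eq_num q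
      rw [← h6, abs_mul, Nat.abs_cast]
    have h7 : |(q.num : ℝ)| ≤ (|θ| + 1) * V := by
      rw [h5]
      have h8 : (q.den : ℝ) ≤ V := by exact_mod_cast hden
      exact mul_le_mul h2 h8 (by positivity) (by positivity)
    have h9 : ((|q.num| : ℤ) : ℝ) ≤ (M : ℝ) := by
      rw [Int.cast_abs]
      exact h7.trans (Int.le_ceil _)
    exact_mod_cast h9
  exact (Finset.finite_toSet _).subset hsub

open Classical in
/-- One block of `v` consecutive multiples. -/
theorem block {θ y : ℝ} {q : ℚ} (hq : |θ - q| < 1 / (q.den : ℝ) ^ 2) {Q s : ℕ} (hs : s < Q) :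
    (q.den : ℝ) / Q - 4 ≤
      (((range q.den).filter fun i : ℕ => ⌊(Q : ℝ) * (y + θ * (i : ℝ))⌋ % (Q : ℤ) = s).card : ℝ) := by
  set v := q.den with hv
  set u := q.num with hu
  have hvpos : 0 < v := q.den_pos
  have hv0 : (0 : ℝ) < v := by exact_mod_cast hvpos
  have hQ : 0 < Q := by omega
  have hQ0 : (0 : ℝ) < Q := by exact_mod_cast hQ
  set b : ℤ := ⌊(v : ℝ) * y⌋ with hb
  -- the target
  set T : Finset ℕ := (range v).filter fun ρ => s * v + Q ≤ Q * ρ ∧ Q * ρ + 2 * Q ≤ (s + 1) * v with hT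
  have hTcard : (v : ℝ) / Q - 4 ≤ (T.card : ℝ) := by
    have h1 : Finset.Ico (s * v / Q + 2) ((s + 1) * v / Q - 1) ⊆ T := by
      intro ρ hρ
      rw [Finset.mem_Ico] at hρ
      obtain ⟨h1, h2⟩ := hρ
      have h3 : s * v < Q * (s * v / Q + 1) := by
        have := Nat.lt_mul_div_succ (s * v) hQ
        exact this
      have h4 : Q * ((s + 1) * v / Q) ≤ (s + 1) * v := Nat.mul_div_le _ _
      have h5 : Q * (s * v / Q + 2) ≤ Q * ρ := Nat.mul_le_mul_left Q h1
      have h6 : Q * (ρ + 2) ≤ Q * ((s + 1) * v / Q) := Nat.mul_le_mul_left Q (by omega)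
      have h7 : (s + 1) * v / Q ≤ v := by
        apply Nat.div_le_of_le_mul
        exact Nat.mul_le_mul_right v hs
      rw [hT, Finset.mem_filter, Finset.mem_range]
      refine ⟨by omega, by nlinarith, by nlinarith⟩
    have h2 := Finset.card_le_card h1
    rw [Nat.card_Ico] at h2
    have h3 : (s + 1) * v / Q ≤ T.card + s * v / Q + 3 := by omega
    have h4 : (((s + 1) * v / Q : ℕ) : ℝ) ≤ (T.card : ℝ) + ((s * v / Q : ℕ) : ℝ) + 3 := by
      exact_mod_cast h3
    have h6 : ((s + 1 : ℝ) * v) / Q - 1 ≤ (((s + 1) * v / Q : ℕ) : ℝ) := by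
      have h7 : (s + 1) * v < Q * ((s + 1) * v / Q + 1) := Nat.lt_mul_div_succ _ hQ
      rw [sub_le_iff_le_add, div_le_iff₀ hQ0]
      have h8 : (((s + 1) * v : ℕ) : ℝ) ≤ ((Q * ((s + 1) * v / Q + 1) : ℕ) : ℝ) := by
        exact_mod_cast h7.le
      push_cast at h8
      linarith [h8]
    have h9 : (((s * v / Q : ℕ)) : ℝ) ≤ (s : ℝ) * v / Q := by
      have := Nat.cast_div_le (α := ℝ) (m := s * v) (n := Q)
      push_cast at this
      exact this
    have h10 : ((s + 1 : ℝ) * v) / Q = (s : ℝ) * v / Q + v / Q := by ring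
    linarith
  refine hTcard.trans (Nat.cast_le.2 ?_)
  apply Finset.card_le_card_of_surjOn (fun i : ℕ => ((b + u * i) % (v : ℤ)).toNat)
  intro ρ hρ
  rw [Finset.mem_coe, hT, Finset.mem_filter, Finset.mem_range] at hρ
  obtain ⟨hρv, h1, h2⟩ := hρ
  -- the inverse of `u`
  have hcop : IsCoprime u (v : ℤ) := by
    rw [Int.isCoprime_iff_gcd_eq_one]
    exact q.reduced
  obtain ⟨c, d, hcd⟩ := hcop
  set i : ℕ := (((ρ : ℤ) - b) * c % (v : ℤ)).toNat with hi
  have hv0' : (v : ℤ) ≠ 0 := by exact_mod_cast hvpos.ne'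
  have hiZ : (i : ℤ) = ((ρ : ℤ) - b) * c % (v : ℤ) := Int.toNat_of_nonneg (Int.emod_nonneg _ hv0')
  have hiv : i < v := by
    have := Int.emod_lt_of_pos (((ρ : ℤ) - b) * c) (by exact_mod_cast hvpos : (0 : ℤ) < v)
    omega
  have hmod : (b + u * i) % (v : ℤ) = ρ := by
    have h3 : (b + u * i) ≡ ρ [ZMOD v] := by
      have h4 : (i : ℤ) ≡ ((ρ : ℤ) - b) * c [ZMOD v] := by
        rw [hiZ]
        exact Int.mod_modEq _ _
      have h5 : b + u * i ≡ b + u * (((ρ : ℤ) - b) * c) [ZMOD v] := (h4.mul_left u).add_left b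
      have h6 : b + u * (((ρ : ℤ) - b) * c) ≡ ρ [ZMOD v] := by
        rw [Int.modEq_iff_dvd]
        refine ⟨((ρ : ℤ) - b) * d, ?_⟩
        linear_combination ((ρ : ℤ) - b) * (-hcd)
      exact h5.trans h6
    rw [h3]
    exact Int.emod_eq_of_lt (by positivity) (by exact_mod_cast hρv)
  refine ⟨i, ?_, ?_⟩
  · rw [Finset.mem_coe, Finset.mem_filter, Finset.mem_range]
    refine ⟨hiv, ?_⟩
    -- the real estimate
    set m : ℤ := (b + u * i) / (v : ℤ) with hm
    have hdiv : (b : ℝ) + u * i = v * m + ρ := by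
      have h3 := Int.mul_ediv_add_emod (b + u * i) (v : ℤ)
      rw [hmod] at h3
      exact_mod_cast h3.symm
    have hb1 : (b : ℝ) ≤ v * y := Int.floor_le _
    have hb2 : (v : ℝ) * y < b + 1 := Int.lt_floor_add_one _
    have hqv : (q : ℝ) * v = u := by exact_mod_cast Rat.mul_den_eq_num q
    have hi0 : (0 : ℝ) ≤ i := by positivity
    have hi1 : (i : ℝ) ≤ v := by exact_mod_cast hiv.le
    have herr : |(θ - q) * i * v| ≤ 1 := by
      rw [abs_mul, abs_mul, abs_of_nonneg hi0, abs_of_pos hv0]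
      have h3 : |θ - q| * i * v ≤ 1 / (v : ℝ) ^ 2 * v * v := by
        gcongr
      refine h3.trans (le_of_eq ?_)
      field_simp
    obtain ⟨he1, he2⟩ := abs_le.1 herr
    have hkey : (v : ℝ) * (y + θ * i) = v * m + ρ + (v * y - b) + (θ - q) * i * v := by
      have h3 : (θ - q) * i * v = θ * i * v - u * i := by
        rw [← hqv]; ring
      rw [h3]
      linear_combination hdiv
    have h1' : (s : ℝ) * v + Q ≤ Q * ρ := by exact_mod_cast h1
    have h2' : (Q : ℝ) * ρ + 2 * Q ≤ (s + 1) * v := by exact_mod_cast h2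
    have hfl : ⌊(Q : ℝ) * (y + θ * i)⌋ = Q * m + s := by
      rw [Int.floor_eq_iff]
      push_cast
      constructor
      · refine le_of_mul_le_mul_left ?_ hv0
        have h3 : (v : ℝ) * (Q * (y + θ * i)) = Q * (v * m + ρ + (v * y - b) + (θ - q) * i * v) := by
          rw [← hkey]; ring
        rw [h3]
        nlinarith
      · refine lt_of_mul_lt_mul_left ?_ hv0.le
        have h3 : (v : ℝ) * (Q * (y + θ * i)) = Q * (v * m + ρ + (v * y - b) + (θ - q) * i * v) := by
          rw [← hkey]; ring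
        rw [h3]
        nlinarith
    rw [hfl, Int.mul_add_emod_self_left]
    exact Int.emod_eq_of_lt (by positivity) (by exact_mod_cast hs)
  · simp only [hmod, Int.toNat_natCast]

end Pool.Agent.H67E
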