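import Pool.Agent.H67E.Equi

/-!
# H67E/Irr: an irrational number and a thin set of primes
-/

set_option autoImplicit false

namespace Pool.Agent.H67E

open Finset

/-- The residue of the integer part of `θ (Q k + r)`. -/
noncomputable def rs (θ : ℝ) (Q r k : ℕ) : ℕ := ⌊θ * ((Q * k + r : ℕ) : ℝ)⌋₊ % Q

open Classical in
theorem count_block {θ : ℝ} (h0 : 0 ≤ θ) {q : ℚ} (hq : |θ - q| < 1 / (q.den : ℝ) ^ 2) {Q s : ℕ}
    (hs : s < Q) (r K : ℕ) :
    (q.den : ℝ) / Q - 4 ≤ (Nat.count (fun k => rs θ Q r (K + k) = s) q.den : ℝ) := by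
  have hQ : (Q : ℝ) ≠ 0 := by
    have : 0 < Q := by omega
    exact_mod_cast this.ne'
  refine (block (y := θ * ((Q * K + r : ℕ) : ℝ) / Q) hq hs).trans ?_
  rw [Nat.count_eq_card_filter_range]
  apply Nat.cast_le.2
  apply Finset.card_le_card
  intro i hi
  rw [Finset.mem_filter] at hi ⊢
  refine ⟨hi.1, ?_⟩
  have h1 : (Q : ℝ) * (θ * ((Q * K + r : ℕ) : ℝ) / Q + θ * (i : ℝ)) =
      θ * ((Q * (K + i) + r : ℕ) : ℝ) := by
    push_cast
    field_simp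
    ring
  have h2 := hi.2
  rw [h1, ← Int.natCast_floor_eq_floor (by positivity)] at h2
  unfold rs
  exact_mod_cast h2

open Classical in
theorem count_ge {θ : ℝ} (h0 : 0 ≤ θ) {q : ℚ} (hq : |θ - q| < 1 / (q.den : ℝ) ^ 2) {Q s : ℕ}
    (hs : s < Q) (r j : ℕ) :
    (j : ℝ) * ((q.den : ℝ) / Q - 4) ≤ (Nat.count (fun k => rs θ Q r k = s) (j * q.den) : ℝ) := by
  induction j with
  | zero => simp
  | succ j ih =>
    rw [Nat.succ_mul, Nat.count_add]
    have := count_block h0 hq hs r (j * q.den)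
    push_cast
    linarith

open Classical in
theorem count_asym {θ : ℝ} (h0 : 0 ≤ θ) (hθ : Irrational θ) {Q s : ℕ} (hs : s < Q) (r : ℕ) {ε : ℝ}
    (hε : 0 < ε) :
    ∃ K0 : ℕ, ∀ K ≥ K0, (1 / (Q : ℝ) - ε) * K ≤ (Nat.count (fun k => rs θ Q r k = s) K : ℝ) := by
  obtain ⟨V, hV⟩ := exists_nat_gt (8 / ε)
  obtain ⟨q, hVq, hq⟩ := exists_approx hθ V
  have hv : 8 / ε < (q.den : ℝ) := hV.trans (by exact_mod_cast hVq)
  have hv0 : (0 : ℝ) < q.den := lt_trans (by positivity) hv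
  have hQ0 : (0 : ℝ) < Q := by
    have : 0 < Q := by omega
    exact_mod_cast this
  have h4 : 4 / (q.den : ℝ) < ε / 2 := by
    rw [div_lt_iff₀ hε] at hv
    rw [div_lt_iff₀ hv0]
    linarith
  obtain ⟨K0, hK0⟩ := exists_nat_gt (2 * q.den / (Q * ε))
  refine ⟨K0, fun K hK => ?_⟩
  have hKR : 2 * (q.den : ℝ) / (Q * ε) < K := hK0.trans_le (by exact_mod_cast hK)
  have hcount := count_ge h0 hq hs r (K / q.den)
  have hmono : (Nat.count (fun k => rs θ Q r k = s) (K / q.den * q.den) : ℝ) ≤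
      (Nat.count (fun k => rs θ Q r k = s) K : ℝ) := by
    exact_mod_cast Nat.count_monotone _ (Nat.div_mul_le_self K q.den)
  have hKnn : (0 : ℝ) ≤ K := by positivity
  rcases le_or_gt 0 ((q.den : ℝ) / Q - 4) with h1 | h1
  · have h2 : (K : ℝ) / q.den - 1 ≤ ((K / q.den : ℕ) : ℝ) := by
      have h3 : K < q.den * (K / q.den + 1) := Nat.lt_mul_div_succ K q.den_pos
      have h3' : (K : ℝ) ≤ q.den * (((K / q.den : ℕ) : ℝ) + 1) := by exact_mod_cast h3.le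
      rw [sub_le_iff_le_add, div_le_iff₀ hv0]
      linarith
    have h3 : ((K : ℝ) / q.den - 1) * ((q.den : ℝ) / Q - 4) ≤
        ((K / q.den : ℕ) : ℝ) * ((q.den : ℝ) / Q - 4) := mul_le_mul_of_nonneg_right h2 h1
    have h5 : ((K : ℝ) / q.den - 1) * ((q.den : ℝ) / Q - 4) =
        K / Q - 4 / q.den * K - q.den / Q + 4 := by
      field_simp
      ring
    have h6 : 4 / (q.den : ℝ) * K ≤ ε / 2 * K := mul_le_mul_of_nonneg_right h4.le hKnn
    have h7 : (q.den : ℝ) / Q ≤ ε / 2 * K := by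
      rw [div_lt_iff₀ (by positivity)] at hKR
      rw [div_le_iff₀ hQ0]
      nlinarith
    have h8 : (1 / (Q : ℝ) - ε) * K = K / Q - ε * K := by ring
    linarith
  · have h2 : 1 / (Q : ℝ) - ε < 0 := by
      have h3 : (q.den : ℝ) / Q < 4 := by linarith
      rw [div_lt_iff₀ hQ0] at h3
      have h5 : 1 / (Q : ℝ) < 4 / q.den := by
        rw [div_lt_div_iff₀ hQ0 hv0]
        linarith
      linarith
    have h3 : (1 / (Q : ℝ) - ε) * K ≤ 0 := mul_nonpos_of_nonpos_of_nonneg h2.le hKnn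
    exact h3.trans (by positivity)

theorem sum_mul_range (g : ℕ → ℕ) (Q K : ℕ) :
    ∑ n ∈ range (Q * K), g n = ∑ r ∈ range Q, ∑ k ∈ range K, g (Q * k + r) := by
  induction K with
  | zero => simp
  | succ K ih =>
    rw [Nat.mul_succ, Finset.sum_range_add, ih, ← Finset.sum_add_distrib]
    refine Finset.sum_congr rfl fun r _ => ?_
    rw [Finset.sum_range_succ]

open Classical in
/-- The pairs `(n, ⌊θ n⌋)` prime to `Q`. -/
theorem total {θ : ℝ} (h0 : 0 ≤ θ) (hθ : Irrational θ) {Q : ℕ} {ε : ℝ} (hε : 0 < ε) :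
    ∃ K0 : ℕ, ∀ K ≥ K0, (Nat.totient Q : ℝ) ^ 2 * ((1 / (Q : ℝ) - ε) * K) ≤
      (((range (Q * K)).filter fun n => Nat.Coprime Q n ∧ Nat.Coprime Q ⌊θ * (n : ℝ)⌋₊).card : ℝ) := by
  set S : Finset ℕ := (range Q).filter fun s => Nat.Coprime Q s with hS
  have hScard : S.card = Nat.totient Q := by rw [hS, Nat.totient_eq_card_coprime]
  have hex : ∀ x : ℕ × ℕ, ∃ K0 : ℕ, x.2 ∈ S → ∀ K ≥ K0,
      (1 / (Q : ℝ) - ε) * K ≤ (Nat.count (fun k => rs θ Q x.1 k = x.2) K : ℝ) := by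
    intro x
    by_cases hx : x.2 ∈ S
    · rw [hS, Finset.mem_filter, Finset.mem_range] at hx
      obtain ⟨K0, hK0⟩ := count_asym h0 hθ hx.1 x.1 hε
      exact ⟨K0, fun _ => hK0⟩
    · exact ⟨0, fun h => absurd h hx⟩
  choose K0 hK0 using hex
  refine ⟨(S ×ˢ S).sup K0, fun K hK => ?_⟩
  have hle : ∀ r ∈ S, ∀ s ∈ S, (1 / (Q : ℝ) - ε) * K ≤ (Nat.count (fun k => rs θ Q r k = s) K : ℝ) := by
    intro r hr s hs
    refine hK0 (r, s) hs K ?_
    refine le_trans ?_ hK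
    exact Finset.le_sup (f := K0) (Finset.mem_product.2 ⟨hr, hs⟩)
  have h1 : (Nat.totient Q : ℝ) ^ 2 * ((1 / (Q : ℝ) - ε) * K) ≤
      ∑ r ∈ S, ∑ s ∈ S, (Nat.count (fun k => rs θ Q r k = s) K : ℝ) := by
    have h2 : ∑ _r ∈ S, ∑ _s ∈ S, (1 / (Q : ℝ) - ε) * K =
        (Nat.totient Q : ℝ) ^ 2 * ((1 / (Q : ℝ) - ε) * K) := by
      rw [Finset.sum_const, Finset.sum_const, hScard, nsmul_eq_mul, nsmul_eq_mul]
      ring
    rw [← h2]
    exact Finset.sum_le_sum fun r hr => Finset.sum_le_sum fun s hs => hle r hr s hs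
  refine h1.trans ?_
  have h3 : ∑ r ∈ S, ∑ s ∈ S, Nat.count (fun k => rs θ Q r k = s) K ≤
      ((range (Q * K)).filter fun n => Nat.Coprime Q n ∧ Nat.Coprime Q ⌊θ * (n : ℝ)⌋₊).card := by
    rw [Finset.card_filter, sum_mul_range]
    refine le_trans ?_ (Finset.sum_le_sum_of_subset (Finset.filter_subset _ _ : S ⊆ range Q))
    refine Finset.sum_le_sum fun r hr => ?_
    have h4 : ∑ s ∈ S, Nat.count (fun k => rs θ Q r k = s) K =
        ∑ k ∈ range K, ∑ s ∈ S, if rs θ Q r k = s then 1 else 0 := by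
      rw [Finset.sum_comm]
      refine Finset.sum_congr rfl fun s _ => ?_
      rw [Nat.count_eq_card_filter_range, Finset.card_filter]
    rw [h4]
    refine Finset.sum_le_sum fun k _ => ?_
    rw [Finset.sum_ite_eq]
    split_ifs with h5 h6 h6
    · exact le_rfl
    · exfalso
      apply h6
      rw [hS, Finset.mem_filter] at h5 hr
      constructor
      · exact (Nat.coprime_mul_left_add_right Q r k).2 hr.2
      · have h7 := h5.2
        unfold rs at h7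
        rw [Nat.Coprime, Nat.gcd_comm, ← Nat.gcd_rec] at h7
        exact h7
    · exact Nat.zero_le _
    · exact le_rfl
  exact_mod_cast h3

theorem floor_inj {θ : ℝ} (h1 : 1 ≤ θ) : Function.Injective fun n : ℕ => ⌊θ * (n : ℝ)⌋₊ := by
  apply StrictMono.injective
  apply strictMono_nat_of_lt_succ
  intro n
  have h2 : θ * (n : ℝ) + 1 ≤ θ * ((n + 1 : ℕ) : ℝ) := by
    push_cast
    linarith
  have h3 : ⌊θ * (n : ℝ)⌋₊ + 1 = ⌊θ * (n : ℝ) + 1⌋₊ := (Nat.floor_add_one (by positivity)).symm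
  have h4 := Nat.floor_le_floor h2
  show ⌊θ * (n : ℝ)⌋₊ < ⌊θ * ((n + 1 : ℕ) : ℝ)⌋₊
  omega

/-- The irrational case. -/
theorem irr {θ : ℝ} (h1 : 1 ≤ θ) (hθ : Irrational θ) {R : Set ℕ} (hR : ∀ p ∈ R, p.Prime)
    (hS : Summable (rcp R)) :
    ∃ n m : ℕ, Free R n ∧ Free R m ∧ |θ * n - m| < 1 := by
  classical
  set C : ℕ := ⌈θ⌉₊ with hC
  have hCθ : θ ≤ C := Nat.le_ceil θ
  set c : ℝ := Real.exp (-(2 * (1 / 2 + ∑' p, rcp R p))) with hc
  have hc0 : 0 < c := Real.exp_pos _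
  obtain ⟨w, hw⟩ := tail hS (η := c ^ 2 / (4 * (C + 1))) (by positivity)
  set P : Finset ℕ := (range (w + 3)).filter fun p => p.Prime ∧ (p = 2 ∨ p ∈ R) with hP
  set Q : ℕ := ∏ p ∈ P, p with hQ
  have hPprime : ∀ p ∈ P, p.Prime := fun p hp => (Finset.mem_filter.1 hp).2.1
  have hQ0 : Q ≠ 0 := Finset.prod_ne_zero_iff.2 fun p hp => (hPprime p hp).ne_zero
  have hQfac : ∀ p ∈ Q.primeFactors, p = 2 ∨ p ∈ R := by
    intro p hp
    have hpp := Nat.prime_of_mem_primeFactors hp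
    have hpd := Nat.dvd_of_mem_primeFactors hp
    rw [hQ, Prime.dvd_finsetProd_iff hpp.prime] at hpd
    obtain ⟨p', hp', hd⟩ := hpd
    have := (Nat.prime_dvd_prime_iff_eq hpp (hPprime p' hp')).1 hd
    rw [this]
    exact (Finset.mem_filter.1 hp').2.2
  have h2Q : 2 ∣ Q := by
    rw [hQ]
    apply Finset.dvd_prod_of_mem
    rw [hP, Finset.mem_filter, Finset.mem_range]
    exact ⟨by omega, Nat.prime_two, Or.inl rfl⟩
  have htot := totient_ge hS hQ0 hQfac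
  rw [← hc] at htot
  have hQR : (0 : ℝ) < Q := by exact_mod_cast Nat.pos_of_ne_zero hQ0
  have hθ0 : 0 ≤ θ := by linarith
  obtain ⟨K0, hK0⟩ := total hθ0 hθ (Q := Q) (ε := c ^ 2 / (4 * Q)) (by positivity)
  set K : ℕ := K0 + 1 with hK
  have hgood := hK0 K (by omega)
  have hKR : (0 : ℝ) < K := by
    rw [hK]
    positivity
  -- the good pairs
  have hgood2 : 3 / 4 * c ^ 2 * (Q * K) ≤
      (((range (Q * K)).filter fun n => Nat.Coprime Q n ∧ Nat.Coprime Q ⌊θ * (n : ℝ)⌋₊).card : ℝ) := by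
    refine le_trans ?_ hgood
    have h2 : (c * Q) ^ 2 ≤ (Nat.totient Q : ℝ) ^ 2 := pow_le_pow_left₀ (by positivity) htot 2
    have h3 : (Nat.totient Q : ℝ) ^ 2 ≤ (Q : ℝ) ^ 2 :=
      pow_le_pow_left₀ (by positivity) (by exact_mod_cast Nat.totient_le Q) 2
    have h4 : (c * Q) ^ 2 * (1 / Q * K) ≤ (Nat.totient Q : ℝ) ^ 2 * (1 / Q * K) :=
      mul_le_mul_of_nonneg_right h2 (by positivity)
    have h5 : (Nat.totient Q : ℝ) ^ 2 * (c ^ 2 / (4 * Q) * K) ≤ (Q : ℝ) ^ 2 * (c ^ 2 / (4 * Q) * K) :=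
      mul_le_mul_of_nonneg_right h3 (by positivity)
    have h6 : (c * Q) ^ 2 * (1 / Q * K) = c ^ 2 * (Q * K) := by field_simp
    have h7 : (Q : ℝ) ^ 2 * (c ^ 2 / (4 * Q) * K) = 1 / 4 * c ^ 2 * (Q * K) := by field_simp
    have h8 : (Nat.totient Q : ℝ) ^ 2 * ((1 / (Q : ℝ) - c ^ 2 / (4 * Q)) * K) =
        (Nat.totient Q : ℝ) ^ 2 * (1 / Q * K) - (Nat.totient Q : ℝ) ^ 2 * (c ^ 2 / (4 * Q) * K) := by
      ring
    rw [h8]
    linarith
  -- the bad numbers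
  have hb1 := card_bad (R := R) (f := fun n : ℕ => n) (fun a b h => h) (C := 1)
    (fun k => by simp) hw (Q * K)
  have hb2 := card_bad (R := R) (f := fun n : ℕ => ⌊θ * (n : ℝ)⌋₊) (floor_inj h1) (C := C)
    (fun k => by
      apply Nat.floor_le_of_le
      push_cast
      exact mul_le_mul_of_nonneg_right hCθ (by positivity)) hw (Q * K)
  by_contra hcon
  push Not at hcon
  have hsub : (range (Q * K)).filter (fun n => Nat.Coprime Q n ∧ Nat.Coprime Q ⌊θ * (n : ℝ)⌋₊) ⊆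
      ((range (Q * K)).filter fun k => k ≠ 0 ∧ ∃ p ∈ R, w < p ∧ p ∣ k) ∪
      ((range (Q * K)).filter fun k => ⌊θ * (k : ℝ)⌋₊ ≠ 0 ∧ ∃ p ∈ R, w < p ∧ p ∣ ⌊θ * (k : ℝ)⌋₊) := by
    intro n hn
    rw [Finset.mem_filter] at hn
    obtain ⟨hnr, hn1, hn2⟩ := hn
    have hz : ∀ k : ℕ, Nat.Coprime Q k → k ≠ 0 := by
      intro k hk h0
      rw [h0, Nat.coprime_zero_right] at hk
      rw [hk] at h2Q
      omega
    have hsm : ∀ k : ℕ, Nat.Coprime Q k → ∀ p ∈ R, p ∣ k → w < p := by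
      intro k hk p hp hpk
      by_contra hwp
      have h3 : p ∣ Q := by
        rw [hQ]
        apply Finset.dvd_prod_of_mem
        rw [hP, Finset.mem_filter, Finset.mem_range]
        exact ⟨by omega, hR p hp, Or.inr hp⟩
      exact Nat.Prime.not_coprime_iff_dvd.2 ⟨p, hR p hp, h3, hpk⟩ hk
    rw [Finset.mem_union, Finset.mem_filter, Finset.mem_filter]
    by_contra hcon2
    push Not at hcon2
    obtain ⟨h3, h4⟩ := hcon2
    have h5 : Free R n := ⟨hz n hn1, fun p hp hd => h3 hnr (hz n hn1) p hp (hsm n hn1 p hp hd) hd⟩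
    have h6 : Free R ⌊θ * (n : ℝ)⌋₊ :=
      ⟨hz _ hn2, fun p hp hd => h4 hnr (hz _ hn2) p hp (hsm _ hn2 p hp hd) hd⟩
    have h7 := hcon n ⌊θ * (n : ℝ)⌋₊ h5 h6
    have h8 := Nat.floor_le (a := θ * (n : ℝ)) (by positivity)
    have h9 := Nat.lt_floor_add_one (θ * (n : ℝ))
    rw [abs_of_nonneg (by linarith)] at h7
    linarith
  have hcard := (Finset.card_le_card hsub).trans (Finset.card_union_le _ _)
  have hcardR : (((range (Q * K)).filter fun n => Nat.Coprime Q n ∧ Nat.Coprime Q ⌊θ * (n : ℝ)⌋₊).card : ℝ) ≤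
      (((range (Q * K)).filter fun k => k ≠ 0 ∧ ∃ p ∈ R, w < p ∧ p ∣ k).card : ℝ) +
      (((range (Q * K)).filter fun k : ℕ => ⌊θ * (k : ℝ)⌋₊ ≠ 0 ∧ ∃ p ∈ R, w < p ∧ p ∣ ⌊θ * (k : ℝ)⌋₊).card : ℝ) := by
    exact_mod_cast hcard
  have h9 : ((1 : ℕ) : ℝ) * ((Q * K : ℕ) : ℝ) * (c ^ 2 / (4 * (C + 1))) +
      (C : ℝ) * ((Q * K : ℕ) : ℝ) * (c ^ 2 / (4 * (C + 1))) = 1 / 4 * c ^ 2 * (Q * K) := by
    push_cast
    field_simp
    ring
  have h10 : 0 < c ^ 2 * ((Q : ℝ) * K) := by positivity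
  linarith

end Pool.Agent.H67E
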