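import Pool.Agent.H67E.Base

/-!
# H67E/Rtl: a rational number and a thin set of primes
-/

set_option autoImplicit false

namespace Pool.Agent.H67E

open Finset

theorem card_ap {A B p : ℕ} (hp : p.Prime) (hA : ¬ p ∣ A) (T : ℕ) :
    ((range T).filter fun t => p ∣ A * t + B).card ≤ T / p + 1 := by
  have h1 : ((range T).filter fun t => p ∣ A * t + B).card ≤ (range (T / p + 1)).card := by
    apply Finset.card_le_card_of_injOn (fun t => t / p)
    · intro t ht
      rw [Finset.mem_coe, Finset.mem_filter, Finset.mem_range] at ht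
      simp only [Finset.coe_range, Set.mem_Iio]
      exact Nat.lt_succ_of_le (Nat.div_le_div_right ht.1.le)
    · have key : ∀ s t : ℕ, s ≤ t → p ∣ A * s + B → p ∣ A * t + B → s / p = t / p → s = t := by
        intro s t hst hs ht hd
        have h2 : p ∣ A * t + B - (A * s + B) := Nat.dvd_sub ht hs
        have h3 : A * t + B - (A * s + B) = A * (t - s) := by
          rw [Nat.mul_sub]
          omega
        rw [h3] at h2
        have h4 : p ∣ t - s := (hp.dvd_mul.1 h2).resolve_left hA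
        have h5 : t - s < p := by
          have h6 := Nat.div_add_mod s p
          have h7 := Nat.div_add_mod t p
          have h8 := Nat.mod_lt s hp.pos
          have h9 := Nat.mod_lt t hp.pos
          rw [hd] at h6
          omega
        have h6 := Nat.eq_zero_of_dvd_of_lt h4 h5
        omega
      intro s hs t ht hd
      rw [Finset.mem_coe, Finset.mem_filter, Finset.mem_range] at hs ht
      rcases le_total s t with h | h
      · exact key s t h hs.2 ht.2 hd
      · exact (key t s h ht.2 hs.2 hd.symm).symm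
  rwa [Finset.card_range] at h1

open Classical in
theorem card_R {R : Set ℕ} {w : ℕ} {η : ℝ}
    (hw : ∀ F : Finset ℕ, (∀ p ∈ F, w < p) → ∑ p ∈ F, rcp R p ≤ η) (z X : ℕ) :
    (((Ioc z X).filter fun p => p ∈ R).card : ℝ) ≤ w + X * η := by
  have h1 : (Ioc z X).filter (fun p => p ∈ R) ⊆ Ioc 0 w ∪ (Ioc w X).filter fun p => p ∈ R := by
    intro p hp
    rw [Finset.mem_filter, Finset.mem_Ioc] at hp
    rw [Finset.mem_union, Finset.mem_filter, Finset.mem_Ioc, Finset.mem_Ioc]
    rcases le_or_gt p w with h | h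
    · exact Or.inl ⟨by omega, h⟩
    · exact Or.inr ⟨⟨h, hp.1.2⟩, hp.2⟩
  have h2 : (((Ioc z X).filter fun p => p ∈ R).card : ℝ) ≤
      w + (((Ioc w X).filter fun p => p ∈ R).card : ℝ) := by
    have h3 := (Finset.card_le_card h1).trans (Finset.card_union_le _ _)
    rw [Nat.card_Ioc, Nat.sub_zero] at h3
    exact_mod_cast h3
  refine h2.trans ?_
  have h4 : (((Ioc w X).filter fun p => p ∈ R).card : ℝ) ≤
      ∑ p ∈ (Ioc w X).filter (fun p => p ∈ R), (X : ℝ) * rcp R p := by
    rw [Finset.card_eq_sum_ones, Nat.cast_sum]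
    apply Finset.sum_le_sum
    intro p hp
    rw [Finset.mem_filter, Finset.mem_Ioc] at hp
    rw [rcp_mem hp.2, Nat.cast_one, mul_one_div, le_div_iff₀ (by exact_mod_cast (by omega : 0 < p)),
      one_mul]
    exact_mod_cast hp.1.2
  have h5 : ∑ p ∈ (Ioc w X).filter (fun p => p ∈ R), (X : ℝ) * rcp R p ≤ X * η := by
    rw [← Finset.mul_sum]
    apply mul_le_mul_of_nonneg_left _ (by positivity)
    apply hw
    intro p hp
    rw [Finset.mem_filter, Finset.mem_Ioc] at hp
    exact hp.1.1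
  linarith

open Classical in
theorem ap_bad {R : Set ℕ} (hR : ∀ p ∈ R, p.Prime) (hS : Summable (rcp R)) {A B z : ℕ} (hB : 0 < B)
    (hz : ∀ F : Finset ℕ, (∀ p ∈ F, z < p) → ∑ p ∈ F, rcp R p ≤ 1 / 8)
    (h1 : ∀ p ∈ R, p ≤ z → p ∣ A ∧ ¬ p ∣ B) (h2 : ∀ p ∈ R, z < p → ¬ p ∣ A) :
    ∃ W : ℕ, ∀ T : ℕ, 0 < T →
      (((range T).filter fun t => ∃ p ∈ R, p ∣ A * t + B).card : ℝ) ≤ T / 4 + W := by
  obtain ⟨W, hW⟩ := tail hS (η := 1 / (8 * (A + B))) (by positivity)
  refine ⟨W, fun T hT => ?_⟩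
  have hT1 : (1 : ℝ) ≤ T := by exact_mod_cast hT
  have h3 : (range T).filter (fun t => ∃ p ∈ R, p ∣ A * t + B) ⊆
      ((Ioc z (A * T + B)).filter fun p => p ∈ R).biUnion fun p =>
        (range T).filter fun t => p ∣ A * t + B := by
    intro t ht
    rw [Finset.mem_filter, Finset.mem_range] at ht
    obtain ⟨ht, p, hp, hpt⟩ := ht
    rw [Finset.mem_biUnion]
    refine ⟨p, ?_, ?_⟩
    · rw [Finset.mem_filter, Finset.mem_Ioc]
      refine ⟨⟨?_, ?_⟩, hp⟩
      · by_contra hzp
        obtain ⟨h4, h5⟩ := h1 p hp (by omega)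
        exact h5 ((Nat.dvd_add_right (h4.mul_right t)).1 hpt)
      · refine (Nat.le_of_dvd (by omega) hpt).trans ?_
        exact Nat.add_le_add_right (Nat.mul_le_mul_left A ht.le) B
    · rw [Finset.mem_filter, Finset.mem_range]
      exact ⟨ht, hpt⟩
  have h4 : (((range T).filter fun t => ∃ p ∈ R, p ∣ A * t + B).card : ℝ) ≤
      ∑ p ∈ (Ioc z (A * T + B)).filter (fun p => p ∈ R), ((T : ℝ) * rcp R p + 1) := by
    refine (Nat.cast_le.2 ((Finset.card_le_card h3).trans Finset.card_biUnion_le)).trans ?_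
    rw [Nat.cast_sum]
    apply Finset.sum_le_sum
    intro p hp
    rw [Finset.mem_filter, Finset.mem_Ioc] at hp
    refine (Nat.cast_le.2 (card_ap (hR p hp.2) (h2 p hp.2 hp.1.1) T)).trans ?_
    rw [rcp_mem hp.2]
    have h5 := Nat.cast_div_le (α := ℝ) (m := T) (n := p)
    push_cast
    rw [mul_one_div]
    linarith
  refine h4.trans ?_
  rw [Finset.sum_add_distrib, ← Finset.mul_sum, Finset.sum_const, nsmul_eq_mul, mul_one]
  have h5 : (T : ℝ) * ∑ p ∈ (Ioc z (A * T + B)).filter (fun p => p ∈ R), rcp R p ≤ T * (1 / 8) := by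
    apply mul_le_mul_of_nonneg_left _ (by positivity)
    apply hz
    intro p hp
    rw [Finset.mem_filter, Finset.mem_Ioc] at hp
    exact hp.1.1
  have h6 := card_R hW z (A * T + B)
  have h7 : ((A * T + B : ℕ) : ℝ) * (1 / (8 * (A + B))) ≤ T * (1 / 8) := by
    have h8 : ((A * T + B : ℕ) : ℝ) ≤ (A + B) * T := by
      push_cast
      have : (B : ℝ) ≤ B * T := le_mul_of_one_le_right (by positivity) hT1
      linarith
    have h9 : (0 : ℝ) < A + B := by
      have : (0 : ℝ) < B := by exact_mod_cast hB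
      positivity
    calc ((A * T + B : ℕ) : ℝ) * (1 / (8 * (A + B))) ≤ ((A + B) * T) * (1 / (8 * (A + B))) := by gcongr
      _ = T * (1 / 8) := by field_simp
  linarith

/-- The starting point. -/
theorem exists_start {u v : ℕ} (hv : 2 ≤ v) (huv : v < u) (hc : Nat.Coprime u v) :
    ∃ e j c : ℕ, u * j = v * c + e ∧ 1 ≤ e ∧ e ≤ 2 ∧ e < v ∧ 1 ≤ j ∧ 1 ≤ c ∧
      (e = 2 → u % 2 = 1 ∧ v % 2 = 1) ∧ (e = 1 → u % 2 = 0 ∨ v % 2 = 0) := by
  have key : ∀ e : ℕ, 1 ≤ e → e < v → ∃ j c : ℕ, u * j = v * c + e ∧ 1 ≤ j ∧ 1 ≤ c := by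
    intro e he hev
    obtain ⟨m, -, hm⟩ := Nat.exists_mul_mod_eq_one_of_coprime hc (by omega : 1 < v)
    have h1 : u * (m * e) % v = e := by
      rw [← mul_assoc, Nat.mul_mod, hm, one_mul, Nat.mod_mod, Nat.mod_eq_of_lt hev]
    have hpos : 1 ≤ m * e := by
      rcases Nat.eq_zero_or_pos (m * e) with h | h
      · rw [h, mul_zero, Nat.zero_mod] at h1
        omega
      · exact h
    refine ⟨m * e, u * (m * e) / v, ?_, hpos, ?_⟩
    · have h2 := Nat.div_add_mod (u * (m * e)) v
      rw [h1] at h2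
      exact h2.symm
    · rw [Nat.one_le_div_iff (by omega)]
      calc v ≤ u := huv.le
        _ = u * 1 := (mul_one u).symm
        _ ≤ u * (m * e) := Nat.mul_le_mul_left u hpos
  rcases Nat.mod_two_eq_zero_or_one u with hu | hu
  · obtain ⟨j, c, h1, h2, h3⟩ := key 1 le_rfl (by omega)
    exact ⟨1, j, c, h1, le_rfl, by omega, by omega, h2, h3, by omega, fun _ => Or.inl hu⟩
  · rcases Nat.mod_two_eq_zero_or_one v with hv' | hv'
    · obtain ⟨j, c, h1, h2, h3⟩ := key 1 le_rfl (by omega)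
      exact ⟨1, j, c, h1, le_rfl, by omega, by omega, h2, h3, by omega, fun _ => Or.inr hv'⟩
    · obtain ⟨j, c, h1, h2, h3⟩ := key 2 (by omega) (by omega)
      exact ⟨2, j, c, h1, by omega, le_rfl, by omega, h2, h3, fun _ => ⟨hu, hv'⟩, by omega⟩

/-- A good residue modulo each prime. -/
theorem exists_res {u v e j c : ℕ} (h : u * j = v * c + e) (h1 : 1 ≤ e) (h2 : e ≤ 2)
    (ho : e = 2 → u % 2 = 1 ∧ v % 2 = 1) (he : e = 1 → u % 2 = 0 ∨ v % 2 = 0) {p : ℕ} (hp : p.Prime) :
    ∃ κ : ℕ, ¬ p ∣ v * κ + j ∧ ¬ p ∣ u * κ + c := by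
  rcases eq_or_ne p 2 with rfl | hp2
  · have hpar : (u % 2) * (j % 2) % 2 = ((v % 2) * (c % 2) + e) % 2 := by
      have h3 : (u * j) % 2 = (v * c + e) % 2 := by rw [h]
      rw [Nat.mul_mod, Nat.add_mod, Nat.mul_mod v c] at h3
      omega
    have hoe : (e = 1 ∧ (u % 2 = 0 ∨ v % 2 = 0)) ∨ (e = 2 ∧ u % 2 = 1 ∧ v % 2 = 1) := by
      have hcase : e = 1 ∨ e = 2 := by omega
      rcases hcase with h3 | h3
      · exact Or.inl ⟨h3, he h3⟩
      · exact Or.inr ⟨h3, ho h3⟩
    have hdv : ∀ a b k : ℕ, (2 ∣ a * k + b ↔ ((a % 2) * (k % 2) + b % 2) % 2 = 0) := by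
      intro a b k
      rw [Nat.dvd_iff_mod_eq_zero, Nat.add_mod, Nat.mul_mod]
      rcases Nat.mod_two_eq_zero_or_one a with ha | ha <;>
        rcases Nat.mod_two_eq_zero_or_one b with hb | hb <;>
        rcases Nat.mod_two_eq_zero_or_one k with hk | hk <;> simp [ha, hb, hk]
    have hex : ∃ κ : ℕ, κ < 2 ∧ ((v % 2) * κ + j % 2) % 2 = 1 ∧ ((u % 2) * κ + c % 2) % 2 = 1 := by
      have hu := Nat.mod_two_eq_zero_or_one u
      have hv := Nat.mod_two_eq_zero_or_one v
      have hj := Nat.mod_two_eq_zero_or_one j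
      have hcc := Nat.mod_two_eq_zero_or_one c
      generalize u % 2 = a at *
      generalize v % 2 = b at *
      generalize j % 2 = j' at *
      generalize c % 2 = c' at *
      rcases hu with rfl | rfl <;> rcases hv with rfl | rfl <;> rcases hj with rfl | rfl <;>
        rcases hcc with rfl | rfl <;>
        first
          | (exfalso; omega)
          | exact ⟨0, by omega, by omega, by omega⟩
          | exact ⟨1, by omega, by omega, by omega⟩
    obtain ⟨κ, hκ, h3, h4⟩ := hex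
    have h5 : κ % 2 = κ := Nat.mod_eq_of_lt hκ
    refine ⟨κ, ?_, ?_⟩
    · rw [hdv, h5, h3]
      omega
    · rw [hdv, h5, h4]
      omega
  · have hp3 : 3 ≤ p := by
      have := hp.two_le
      omega
    have hpe : ¬ p ∣ e := fun hd => by
      have := Nat.le_of_dvd (by omega) hd
      omega
    -- each condition fails for at most one of 0, 1, 2
    have hV : ∀ s t : ℕ, s < t → t ≤ 2 → p ∣ v * s + j → p ∣ v * t + j → False := by
      intro s t hst ht hs ht'
      have h3 : p ∣ v * (t - s) := by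
        have h4 := Nat.dvd_sub ht' hs
        have h5 : v * t + j - (v * s + j) = v * (t - s) := by
          rw [Nat.mul_sub]; omega
        rwa [h5] at h4
      rcases hp.dvd_mul.1 h3 with h4 | h4
      · have h5 : p ∣ j := (Nat.dvd_add_right (h4.mul_right s)).1 hs
        apply hpe
        have h6 : p ∣ v * c + e := by
          rw [← h]
          exact h5.mul_left u
        exact (Nat.dvd_add_right (h4.mul_right c)).1 h6
      · have := Nat.le_of_dvd (by omega) h4
        omega
    have hU : ∀ s t : ℕ, s < t → t ≤ 2 → p ∣ u * s + c → p ∣ u * t + c → False := by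
      intro s t hst ht hs ht'
      have h3 : p ∣ u * (t - s) := by
        have h4 := Nat.dvd_sub ht' hs
        have h5 : u * t + c - (u * s + c) = u * (t - s) := by
          rw [Nat.mul_sub]; omega
        rwa [h5] at h4
      rcases hp.dvd_mul.1 h3 with h4 | h4
      · have h5 : p ∣ c := (Nat.dvd_add_right (h4.mul_right s)).1 hs
        apply hpe
        have h6 : p ∣ v * c + e := by
          rw [← h]
          exact h4.mul_right j
        exact (Nat.dvd_add_right (h5.mul_left v)).1 h6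
      · have := Nat.le_of_dvd (by omega) h4
        omega
    by_contra hcon
    push Not at hcon
    have a0 := hcon 0
    have a1 := hcon 1
    have a2 := hcon 2
    have v01 := hV 0 1 (by omega) (by omega)
    have v02 := hV 0 2 (by omega) (by omega)
    have v12 := hV 1 2 (by omega) (by omega)
    have u01 := hU 0 1 (by omega) (by omega)
    have u02 := hU 0 2 (by omega) (by omega)
    have u12 := hU 1 2 (by omega) (by omega)
    tauto

/-- The rational case. -/
theorem rtl {u v : ℕ} (hv : 2 ≤ v) (huv : v < u) (hc : Nat.Coprime u v) {R : Set ℕ}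
    (hR : ∀ p ∈ R, p.Prime) (hS : Summable (rcp R)) :
    ∃ n m : ℕ, Free R n ∧ Free R m ∧ |(u : ℝ) / v * n - m| < 1 := by
  classical
  obtain ⟨e, j, c, hjc, he1, he2, hev, hj, hc1, ho, hev2⟩ := exists_start hv huv hc
  obtain ⟨w, hw⟩ := tail hS (η := 1 / 8) (by norm_num)
  set z : ℕ := max w u with hz
  have hzt : ∀ F : Finset ℕ, (∀ p ∈ F, z < p) → ∑ p ∈ F, rcp R p ≤ 1 / 8 := fun F hF =>
    hw F fun p hp => (le_max_left w u).trans_lt (hF p hp)
  set P : Finset ℕ := (range (z + 1)).filter fun p => p ∈ R with hP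
  have hPR : ∀ p ∈ P, p ∈ R := fun p hp => (Finset.mem_filter.1 hp).2
  set Q : ℕ := ∏ p ∈ P, p with hQ
  choose κ hκ1 hκ2 using fun (p : ℕ) (hp : p.Prime) => exists_res hjc he1 he2 ho hev2 hp
  -- the starting residue
  obtain ⟨k0, hk0⟩ : ∃ k0 : ℕ, ∀ p ∈ P, ¬ p ∣ v * k0 + j ∧ ¬ p ∣ u * k0 + c := by
    have hpw : Set.Pairwise (P : Set ℕ) (Function.onFun Nat.Coprime fun p => p) := by
      intro p hp q hq hpq
      exact (Nat.coprime_primes (hR p (hPR p hp)) (hR q (hPR q hq))).2 hpq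
    obtain ⟨k0, hk0⟩ := Nat.chineseRemainderOfFinset
      (fun p => if hp : p.Prime then κ p hp else 0) (fun p => p) P
      (fun p hp => (hR p (hPR p hp)).ne_zero) hpw
    refine ⟨k0, fun p hp => ?_⟩
    have hpp := hR p (hPR p hp)
    have h1 : k0 ≡ κ p hpp [MOD p] := by
      have := hk0 p hp
      simpa [hpp] using this
    constructor
    · intro hd
      apply hκ1 p hpp
      have h2 : v * k0 + j ≡ v * κ p hpp + j [MOD p] := (h1.mul_left v).add_right j
      exact (h2.dvd_iff dvd_rfl).1 hd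
    · intro hd
      apply hκ2 p hpp
      have h2 : u * k0 + c ≡ u * κ p hpp + c [MOD p] := (h1.mul_left u).add_right c
      exact (h2.dvd_iff dvd_rfl).1 hd
  have hPz : ∀ p ∈ R, p ≤ z → p ∈ P := fun p hp hpz => by
    rw [hP, Finset.mem_filter, Finset.mem_range]
    exact ⟨by omega, hp⟩
  have hQd : ∀ p ∈ R, p ≤ z → p ∣ Q := fun p hp hpz => Finset.dvd_prod_of_mem _ (hPz p hp hpz)
  have hQn : ∀ p ∈ R, z < p → ¬ p ∣ Q := by
    intro p hp hpz hd
    rw [hQ, Prime.dvd_finsetProd_iff (hR p hp).prime] at hd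
    obtain ⟨q, hq, hpq⟩ := hd
    have h1 := (Nat.prime_dvd_prime_iff_eq (hR p hp) (hR q (hPR q hq))).1 hpq
    have h2 := Finset.mem_range.1 (Finset.mem_filter.1 hq).1
    omega
  have hnu : ∀ p ∈ R, z < p → ¬ p ∣ u := fun p hp hpz hd => by
    have := Nat.le_of_dvd (by omega) hd
    have := le_max_right w u
    omega
  have hnv : ∀ p ∈ R, z < p → ¬ p ∣ v := fun p hp hpz hd => by
    have := Nat.le_of_dvd (by omega) hd
    have := le_max_right w u
    omega
  obtain ⟨W1, hW1⟩ := ap_bad hR hS (A := v * Q) (B := v * k0 + j) (by omega) hzt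
    (fun p hp hpz => ⟨(hQd p hp hpz).mul_left v, (hk0 p (hPz p hp hpz)).1⟩)
    (fun p hp hpz hd => ((hR p hp).dvd_mul.1 hd).elim (hnv p hp hpz) (hQn p hp hpz))
  obtain ⟨W2, hW2⟩ := ap_bad hR hS (A := u * Q) (B := u * k0 + c) (by omega) hzt
    (fun p hp hpz => ⟨(hQd p hp hpz).mul_left u, (hk0 p (hPz p hp hpz)).2⟩)
    (fun p hp hpz hd => ((hR p hp).dvd_mul.1 hd).elim (hnu p hp hpz) (hQn p hp hpz))
  set T : ℕ := 2 * (W1 + W2) + 1 with hT
  have h1 := hW1 T (by omega)
  have h2 := hW2 T (by omega)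
  by_contra hcon
  push Not at hcon
  have hsub : range T ⊆ ((range T).filter fun t => ∃ p ∈ R, p ∣ v * Q * t + (v * k0 + j)) ∪
      ((range T).filter fun t => ∃ p ∈ R, p ∣ u * Q * t + (u * k0 + c)) := by
    intro t ht
    rw [Finset.mem_union, Finset.mem_filter, Finset.mem_filter]
    by_contra hcon2
    push Not at hcon2
    obtain ⟨h3, h4⟩ := hcon2
    have h5 : Free R (v * Q * t + (v * k0 + j)) := ⟨by omega, h3 ht⟩
    have h6 : Free R (u * Q * t + (u * k0 + c)) := ⟨by omega, h4 ht⟩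
    have h7 := hcon _ _ h5 h6
    have hv0 : (0 : ℝ) < v := by exact_mod_cast (by omega : 0 < v)
    have h8 : (u : ℝ) / v * ((v * Q * t + (v * k0 + j) : ℕ) : ℝ) - ((u * Q * t + (u * k0 + c) : ℕ) : ℝ) =
        e / v := by
      have h9 : (u : ℝ) * j = v * c + e := by exact_mod_cast hjc
      push_cast
      field_simp
      linear_combination h9
    rw [h8, abs_of_nonneg (by positivity), le_div_iff₀ hv0, one_mul] at h7
    have h9 : v ≤ e := by exact_mod_cast h7
    omega
  have h3 := (Finset.card_le_card hsub).trans (Finset.card_union_le _ _)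
  rw [Finset.card_range] at h3
  have h4 : (T : ℝ) ≤ (((range T).filter fun t => ∃ p ∈ R, p ∣ v * Q * t + (v * k0 + j)).card : ℝ) +
      (((range T).filter fun t => ∃ p ∈ R, p ∣ u * Q * t + (u * k0 + c)).card : ℝ) := by
    exact_mod_cast h3
  have h5 : (T : ℝ) = 2 * (W1 + W2) + 1 := by
    rw [hT]
    push_cast
    ring
  linarith

end Pool.Agent.H67E
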