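import Pool.Prelude.Def_F_f983ba18
import Pool.Agent.H67E.Irr
import Pool.Agent.H67E.Rtl

/-!
# H67E/Main: sequences which contain almost all primes; the rank bound; the maximality of the primes
-/

set_option autoImplicit false

namespace Pool.Agent.H67E

open N44b300f8 Finset

theorem bi_add (a : ℕ → ℝ) (k l : ℕ →₀ ℕ) :
    beurlingInteger a (k + l) = beurlingInteger a k * beurlingInteger a l := by
  simp [beurlingInteger, Finsupp.prod_add_index', pow_add]

theorem bi_single (a : ℕ → ℝ) (i : ℕ) : beurlingInteger a (Finsupp.single i 1) = a i := by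
  simp [beurlingInteger]

theorem bi_zero (a : ℕ → ℝ) : beurlingInteger a 0 = 1 := by
  simp [beurlingInteger]

theorem bi_sum (a : ℕ → ℝ) (s : Finset ℕ) (e : ℕ → ℕ) :
    beurlingInteger a (∑ i ∈ s, Finsupp.single i (e i)) = ∏ i ∈ s, a i ^ e i := by
  induction s using Finset.induction_on with
  | empty => simp [beurlingInteger]
  | insert i s hi ih =>
    rw [Finset.sum_insert hi, Finset.prod_insert hi, bi_add, ih]
    simp [beurlingInteger]

/-! ### Almost all primes -/

/-- A number without prime factors in `R` is a product of terms which are primes. -/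
theorem exists_exp {a : ℕ → ℝ} {R : Set ℕ} (hR : ∀ p : ℕ, p.Prime → p ∉ R → ∃ i, a i = p) (n : ℕ) :
    Free R n → ∃ k : ℕ →₀ ℕ, beurlingInteger a k = n ∧ ∀ i ∈ k.support, ∃ p : ℕ, a i = p := by
  induction n using induction_on_primes with
  | zero => exact fun h => absurd rfl h.1
  | one =>
    intro _
    exact ⟨0, by simp [beurlingInteger], by simp⟩
  | prime_mul p n hp ih =>
    intro h
    have h1 : Free R n := ⟨fun h0 => h.1 (by rw [h0, mul_zero]), fun q hq hd => h.2 q hq (hd.mul_left p)⟩
    obtain ⟨k, hk, hk'⟩ := ih h1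
    have h2 : p ∉ R := fun hpR => h.2 p hpR (dvd_mul_right p n)
    obtain ⟨i, hi⟩ := hR p hp h2
    refine ⟨Finsupp.single i 1 + k, ?_, ?_⟩
    · rw [bi_add, bi_single, hk, hi]
      push_cast
      ring
    · intro j hj
      rw [Finsupp.mem_support_iff, Finsupp.add_apply] at hj
      by_cases h3 : k j = 0
      · have h4 : j = i := by
          by_contra h5
          rw [h3, Finsupp.single_apply, if_neg (fun h6 => h5 h6.symm)] at hj
          exact hj rfl
        exact ⟨p, by rw [h4, hi]⟩
      · exact hk' j (Finsupp.mem_support_iff.2 h3)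

/-- A sequence which contains almost all primes consists of integers. -/
theorem int_of_thin {a : ℕ → ℝ} (h0 : 1 < a 0) (hm : StrictMono a) (hs : Erdos951Prop a) {R : Set ℕ}
    (hRp : ∀ p ∈ R, p.Prime) (hR : ∀ p : ℕ, p.Prime → p ∉ R → ∃ i, a i = p)
    (hS : Summable (rcp R)) (i : ℕ) : ∃ n : ℕ, a i = n := by
  by_contra hcon
  have hi1 : 1 < a i := h0.trans_le (hm.monotone (Nat.zero_le i))
  have key : ∀ n m : ℕ, Free R n → Free R m → 1 ≤ |a i * n - m| := by
    intro n m hn hm'
    obtain ⟨k, hk, -⟩ := exists_exp hR n hn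
    obtain ⟨l, hl, hl'⟩ := exists_exp hR m hm'
    have hne : Finsupp.single i 1 + k ≠ l := by
      intro h
      have h1 : l i ≠ 0 := by
        rw [← h, Finsupp.add_apply, Finsupp.single_eq_same]
        omega
      exact hcon (hl' i (Finsupp.mem_support_iff.2 h1))
    have h1 := hs _ _ hne
    rw [bi_add, bi_single, hk, hl] at h1
    exact h1
  by_cases hir : Irrational (a i)
  · obtain ⟨n, m, hn, hm', hlt⟩ := irr hi1.le hir hRp hS
    exact absurd (key n m hn hm') (not_le.2 hlt)
  · rw [Irrational, Set.mem_range, not_not] at hir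
    obtain ⟨q, hq⟩ := hir
    have hq1 : 1 < q := by
      have : (1 : ℝ) < (q : ℝ) := by rw [hq]; exact hi1
      exact_mod_cast this
    have hnum : 0 < q.num := Rat.num_pos.2 (by linarith)
    set u : ℕ := q.num.toNat with hu
    have huZ : (u : ℤ) = q.num := Int.toNat_of_nonneg hnum.le
    have hqd : q = (u : ℚ) / (q.den : ℚ) := by
      have h1 := (Rat.num_div_den q).symm
      rw [← huZ, Int.cast_natCast] at h1
      exact h1
    have hd0 : (0 : ℚ) < q.den := by exact_mod_cast q.den_pos
    have hlt : q.den < u := by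
      have h2 : (1 : ℚ) < (u : ℚ) / (q.den : ℚ) := hq1.trans_eq hqd
      rw [lt_div_iff₀ hd0, one_mul] at h2
      exact_mod_cast h2
    have hd2 : 2 ≤ q.den := by
      by_contra h1
      have h2 : q.den = 1 := by
        have := q.den_pos
        omega
      apply hcon
      refine ⟨u, ?_⟩
      have h3 : q = (u : ℚ) := by
        refine hqd.trans ?_
        rw [h2]
        simp
      rw [← hq, h3]
      simp
    have hcop : Nat.Coprime u q.den := by
      have h1 := q.reduced
      have h2 : q.num.natAbs = u := by omega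
      rwa [h2] at h1
    obtain ⟨n, m, hn, hm', hl⟩ := rtl hd2 hlt hcop hRp hS
    have h3 : (u : ℝ) / (q.den : ℝ) = a i := by
      rw [← hq]
      have h4 : ((q : ℚ) : ℝ) = (((u : ℚ) / (q.den : ℚ) : ℚ) : ℝ) := by rw [← hqd]
      rw [h4]
      push_cast
      rfl
    rw [h3] at hl
    exact absurd (key n m hn hm') (not_le.2 hl)

/-! ### The rank bound -/

theorem finite_le {a : ℕ → ℝ} (h0 : 1 < a 0) (hm : StrictMono a) (hs : Erdos951Prop a) (x : ℝ) :
    {i | a i ≤ x}.Finite := by
  have h1 : ∀ i : ℕ, (i : ℝ) ≤ a i := by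
    intro i
    induction i with
    | zero => simp; linarith
    | succ i ih =>
      have h1 : (Finsupp.single (i + 1) 1 : ℕ →₀ ℕ) ≠ Finsupp.single i 1 := by
        intro h
        rw [Finsupp.single_left_inj one_ne_zero] at h
        omega
      have h2 := hs _ _ h1
      rw [bi_single, bi_single] at h2
      have h3 := hm (Nat.lt_succ_self i)
      rw [ge_iff_le, abs_of_pos (by linarith)] at h2
      push_cast
      linarith
  apply (Set.finite_Iic ⌊x⌋₊).subset
  intro i hi
  rw [Set.mem_Iic]
  exact Nat.le_floor ((h1 i).trans hi)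

/-- Integers with distinct products are not more numerous than the primes. -/
theorem rank_bound {a : ℕ → ℝ} (h0 : 1 < a 0) (hm : StrictMono a) (hs : Erdos951Prop a)
    (hint : ∀ i, ∃ n : ℕ, a i = n) (x : ℝ) :
    {i : ℕ | a i ≤ x}.ncard ≤ Nat.primeCounting ⌊x⌋₊ := by
  classical
  choose b hb using hint
  have hfin := finite_le h0 hm hs x
  set S : Finset ℕ := hfin.toFinset with hSdef
  have hS : ∀ i, i ∈ S ↔ a i ≤ x := fun i => by
    rw [hSdef, Set.Finite.mem_toFinset]
    rfl
  have hbpos : ∀ i, b i ≠ 0 := by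
    intro i h
    have h1 : 1 < a i := h0.trans_le (hm.monotone (Nat.zero_le i))
    rw [hb, h] at h1
    norm_num at h1
  set P : Finset ℕ := (range (⌊x⌋₊ + 1)).filter Nat.Prime with hP
  have hPcard : P.card = Nat.primeCounting ⌊x⌋₊ := by
    rw [Nat.primeCounting, Nat.primeCounting', Nat.count_eq_card_filter_range]
  have hli : LinearIndependent ℤ fun (i : S) (p : P) => (((b i.1).factorization p.1 : ℕ) : ℤ) := by
    rw [Fintype.linearIndependent_iff]
    intro g hg i0
    set G : ℕ → ℤ := fun i => if h : i ∈ S then g ⟨i, h⟩ else 0 with hG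
    have hGg : ∀ i : S, G i.1 = g i := fun i => by
      simp only [hG]
      rw [dif_pos i.2]
    have hrel : ∀ p ∈ P, ∑ i ∈ S, G i * ((b i).factorization p : ℤ) = 0 := by
      intro p hp
      have h1 := congrFun hg ⟨p, hp⟩
      rw [Finset.sum_apply] at h1
      simp only [Pi.smul_apply, smul_eq_mul, Pi.zero_apply] at h1
      rw [← Finset.sum_coe_sort S (fun i => G i * ((b i).factorization p : ℤ))]
      rw [← h1]
      refine Finset.sum_congr rfl fun i _ => ?_
      rw [hGg]
    set n1 : ℕ := ∏ i ∈ S, b i ^ (G i).toNat with hn1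
    set n2 : ℕ := ∏ i ∈ S, b i ^ (-G i).toNat with hn2
    have hne : ∀ e : ℕ → ℕ, ∏ i ∈ S, b i ^ e i ≠ 0 := fun e =>
      Finset.prod_ne_zero_iff.2 fun i _ => pow_ne_zero _ (hbpos i)
    have hfac : ∀ (e : ℕ → ℕ) (p : ℕ), (∏ i ∈ S, b i ^ e i).factorization p =
        ∑ i ∈ S, e i * (b i).factorization p := by
      intro e p
      rw [Nat.factorization_prod fun i _ => pow_ne_zero _ (hbpos i), Finset.sum_apply']
      refine Finset.sum_congr rfl fun i _ => ?_
      rw [Nat.factorization_pow, Finsupp.smul_apply, smul_eq_mul]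
    have heq : n1 = n2 := by
      apply Nat.eq_of_factorization_eq (hne _) (hne _)
      intro p
      rw [hfac, hfac]
      by_cases hp : p ∈ P
      · have h1 := hrel p hp
        have h2 : (∑ i ∈ S, ((G i).toNat : ℤ) * ((b i).factorization p : ℤ)) =
            ∑ i ∈ S, ((-G i).toNat : ℤ) * ((b i).factorization p : ℤ) := by
          rw [← sub_eq_zero, ← Finset.sum_sub_distrib, ← h1]
          refine Finset.sum_congr rfl fun i _ => ?_
          rw [← sub_mul]
          congr 1
          omega
        exact_mod_cast h2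
      · have h3 : ∀ i ∈ S, (b i).factorization p = 0 := by
          intro i hi
          by_cases hpp : p.Prime
          · apply Nat.factorization_eq_zero_of_not_dvd
            intro hd
            apply hp
            rw [hP, Finset.mem_filter, Finset.mem_range]
            refine ⟨?_, hpp⟩
            have h4 := Nat.le_of_dvd (Nat.pos_of_ne_zero (hbpos i)) hd
            have h5 : b i ≤ ⌊x⌋₊ := by
              apply Nat.le_floor
              rw [← hb]
              exact (hS i).1 hi
            omega
          · exact Nat.factorization_eq_zero_of_not_prime _ hpp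
        rw [Finset.sum_eq_zero fun i hi => by rw [h3 i hi, mul_zero],
          Finset.sum_eq_zero fun i hi => by rw [h3 i hi, mul_zero]]
    by_contra hne0
    have hk : (∑ i ∈ S, Finsupp.single i (G i).toNat : ℕ →₀ ℕ) ≠ ∑ i ∈ S, Finsupp.single i (-G i).toNat := by
      intro h
      apply hne0
      have h1 := DFunLike.congr_fun h i0.1
      rw [Finset.sum_apply', Finset.sum_apply'] at h1
      simp only [Finsupp.single_apply] at h1
      rw [Finset.sum_ite_eq', Finset.sum_ite_eq', if_pos i0.2, if_pos i0.2, hGg] at h1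
      omega
    have h1 := hs _ _ hk
    rw [bi_sum, bi_sum] at h1
    have h2 : ∀ e : ℕ → ℕ, ∏ i ∈ S, a i ^ e i = ((∏ i ∈ S, b i ^ e i : ℕ) : ℝ) := by
      intro e
      push_cast
      exact Finset.prod_congr rfl fun i _ => by rw [hb]
    rw [h2, h2] at h1
    have h3 : ((∏ i ∈ S, b i ^ (G i).toNat : ℕ) : ℝ) = ((∏ i ∈ S, b i ^ (-G i).toNat : ℕ) : ℝ) := by
      exact_mod_cast congrArg (Nat.cast : ℕ → ℝ) heq
    rw [h3, sub_self, abs_zero] at h1
    norm_num at h1
  have hcard := hli.fintype_card_le_finrank
  rw [Module.finrank_fintype_fun_eq_card, Fintype.card_coe, Fintype.card_coe, hPcard] at hcard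
  rwa [Set.ncard_eq_toFinset_card _ hfin]

/-! ### The maximality of the primes -/

/-- An injective map with `f n ≤ n` is the identity. -/
theorem eq_self {f : ℕ → ℕ} (h1 : ∀ n ≥ 1, 1 ≤ f n) (h2 : ∀ n ≥ 1, f n ≤ n)
    (h3 : ∀ n ≥ 1, ∀ m ≥ 1, f n = f m → n = m) : ∀ n ≥ 1, f n = n := by
  intro n
  induction n using Nat.strong_induction_on with
  | _ n ih =>
    intro hn
    by_contra hne
    have h4 : f n < n := lt_of_le_of_ne (h2 n hn) hne
    have h5 := ih (f n) h4 (h1 n hn)
    have h6 := h3 (f n) (h1 n hn) n hn h5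
    omega

theorem exists_exp_le {a : ℕ → ℝ} (hpos : ∀ i, 1 < a i)
    (hle : ∀ i, a i ≤ (Nat.nth Nat.Prime i : ℕ)) (n : ℕ) : 1 ≤ n →
    ∃ k : ℕ →₀ ℕ, beurlingInteger (fun i => (Nat.nth Nat.Prime i : ℝ)) k = n ∧
      1 ≤ beurlingInteger a k ∧ beurlingInteger a k ≤ n := by
  induction n using induction_on_primes with
  | zero => exact fun h => absurd h (by norm_num)
  | one =>
    intro _
    exact ⟨0, by simp [beurlingInteger], by simp [beurlingInteger], by simp [beurlingInteger]⟩
  | prime_mul p n hp ih =>
    intro h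
    have hn : 1 ≤ n := by
      rcases Nat.eq_zero_or_pos n with h1 | h1
      · rw [h1, mul_zero] at h
        omega
      · exact h1
    obtain ⟨k, hk1, hk2, hk3⟩ := ih hn
    have hi : Nat.nth Nat.Prime (Nat.count Nat.Prime p) = p := Nat.nth_count hp
    refine ⟨Finsupp.single (Nat.count Nat.Prime p) 1 + k, ?_, ?_, ?_⟩
    · rw [bi_add, bi_single, hk1, hi]
      push_cast
      ring
    · rw [bi_add, bi_single]
      exact one_le_mul_of_one_le_of_one_le (hpos _).le hk2
    · rw [bi_add, bi_single]
      push_cast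
      have h1 := hle (Nat.count Nat.Prime p)
      rw [hi] at h1
      exact mul_le_mul h1 hk3 (by linarith) (by positivity)

/-- A sequence which is nowhere less numerous than the primes is the sequence of primes. -/
theorem eq_primes {a : ℕ → ℝ} (h0 : 1 < a 0) (hm : StrictMono a) (hs : Erdos951Prop a)
    (hA : ∀ x : ℝ, Nat.primeCounting ⌊x⌋₊ ≤ {i : ℕ | a i ≤ x}.ncard) (i : ℕ) :
    a i = (Nat.nth Nat.Prime i : ℕ) := by
  classical
  have hpos : ∀ i, 1 < a i := fun i => h0.trans_le (hm.monotone (Nat.zero_le i))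
  have hle : ∀ i, a i ≤ (Nat.nth Nat.Prime i : ℕ) := by
    intro i
    by_contra hcon
    push Not at hcon
    have h1 := hA (Nat.nth Nat.Prime i : ℕ)
    rw [Nat.floor_natCast] at h1
    have h2 : Nat.primeCounting (Nat.nth Nat.Prime i) = i + 1 := by
      rw [Nat.primeCounting, Nat.primeCounting', Nat.count_succ,
        Nat.count_nth_of_infinite Nat.infinite_setOfPred_prime,
        if_pos (Nat.nth_mem_of_infinite Nat.infinite_setOfPred_prime i)]
    rw [h2] at h1
    have h3 : {j : ℕ | a j ≤ ((Nat.nth Nat.Prime i : ℕ) : ℝ)} ⊆ (Finset.range i : Set ℕ) := by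
      intro j hj
      rw [Finset.coe_range, Set.mem_Iio]
      exact hm.lt_iff_lt.1 (lt_of_le_of_lt hj hcon)
    have h4 := Set.ncard_le_ncard h3 (Finset.finite_toSet _)
    rw [Set.ncard_coe_finset, Finset.card_range] at h4
    omega
  have hex := exists_exp_le hpos hle
  choose! K hK1 hK2 hK3 using hex
  -- change the choice at the prime number `i`
  set p : ℕ := Nat.nth Nat.Prime i with hp
  set L : ℕ → (ℕ →₀ ℕ) := Function.update K p (Finsupp.single i 1) with hL
  have hLp : L p = Finsupp.single i 1 := Function.update_self _ _ _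
  have hLne : ∀ n, n ≠ p → L n = K n := fun n hn => Function.update_of_ne hn _ _
  have hp1 : 1 ≤ p := (Nat.prime_nth_prime i).one_lt.le
  have hL1 : ∀ n ≥ 1, beurlingInteger (fun i => (Nat.nth Nat.Prime i : ℝ)) (L n) = n := by
    intro n hn
    by_cases h : n = p
    · rw [h, hLp, bi_single]
    · rw [hLne n h]
      exact hK1 n hn
  have hL2 : ∀ n ≥ 1, 1 ≤ beurlingInteger a (L n) := by
    intro n hn
    by_cases h : n = p
    · rw [h, hLp, bi_single]
      exact (hpos i).le
    · rw [hLne n h]
      exact hK2 n hn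
  have hL3 : ∀ n ≥ 1, beurlingInteger a (L n) ≤ n := by
    intro n hn
    by_cases h : n = p
    · rw [h, hLp, bi_single]
      exact hle i
    · rw [hLne n h]
      exact hK3 n hn
  have hf := eq_self (f := fun n => ⌊beurlingInteger a (L n)⌋₊)
    (fun n hn => Nat.le_floor (by exact_mod_cast hL2 n hn))
    (fun n hn => Nat.floor_le_of_le (hL3 n hn))
    (fun n hn m hm' hfl => by
      by_contra hne
      have h1 : L n ≠ L m := by
        intro h
        have h2 := hL1 n hn
        rw [h, hL1 m hm'] at h2
        exact hne (by exact_mod_cast h2.symm)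
      have h2 := hs _ _ h1
      have h3 := Nat.floor_le (a := beurlingInteger a (L n)) (by linarith [hL2 n hn])
      have h4 := Nat.floor_le (a := beurlingInteger a (L m)) (by linarith [hL2 m hm'])
      have h5 := Nat.lt_floor_add_one (beurlingInteger a (L n))
      have h6 := Nat.lt_floor_add_one (beurlingInteger a (L m))
      rw [hfl] at h3 h5
      have h7 : |beurlingInteger a (L n) - beurlingInteger a (L m)| < 1 := by
        rw [abs_lt]
        constructor <;> linarith
      linarith)
  have h1 := hf p hp1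
  have h2 := Nat.floor_le (a := beurlingInteger a (L p)) (by linarith [hL2 p hp1])
  rw [h1, hLp, bi_single] at h2
  exact le_antisymm (hle i) h2

end Pool.Agent.H67E
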